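import Pool.Agent.Q78.WI.Stm

/-!
# Project WI (helper78), job C10: the identity up to a stopping time
-/

set_option autoImplicit false

open MeasureTheory ProbabilityTheory Filter Topology Set
open scoped NNReal InnerProductSpace Matrix

namespace Pool.Agent.Q110.WI

open Pool.Agent.Q78.WI

universe u v

theorem c10 (hTD4 : S_TD4.{v}) (hC5 : S_C5.{u}) (hC6 : S_C6.{u}) (hC7 : S_C7.{u})
    (hC8 : S_C8.{u, v}) (hC9 : S_C9.{u, v}) : S_C10.{u, v} := by
  intro H _ _ _ T hT Q hQ α d g y hgy U hU Ω _ P _ ℱ X τ K hpos hcont hadp hstop hbd hmart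
  obtain ⟨⟨B, hB⟩, hC⟩ := hC7 H T hT Q hQ α d g y U hU
  obtain ⟨C, hC0, hC⟩ := hC K
  have hτ : Measurable τ := measurable_of_Iic fun t => ℱ.le t _ (hstop t)
  have hXm : ∀ t (x z : H), Measurable fun ω => ⟪X t ω x, z⟫_ℝ := fun t x z =>
    (hadp t x z).mono (ℱ.le t) le_rfl
  have hXc : ∀ ω, Continuous fun t : ℝ => X t.toNNReal ω := fun ω =>
    (hcont ω).comp continuous_real_toNNReal
  have hdata : TDData P ℱ τ 1 B C (fun s t ω => av α T Q g U (X t.toNNReal ω) s)
      (fun s t ω => cv α T Q g y U (X t.toNNReal ω) s) := by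
    refine ⟨hstop, ?_, ?_, ?_, hC0, ?_, ?_, ?_⟩
    · intro ω t _ s hs
      rw [NNReal.coe_one] at hs ⊢
      exact hC5 H T hT Q hQ α d g y hgy U hU _ (hpos _ ω) s hs
    · intro ω
      rw [NNReal.coe_one]
      exact ((hC6 H T hT Q hQ α d g y U hU (fun t => X t.toNNReal ω) (hXc ω)).2).mono
        (Set.prod_mono le_rfl (Set.subset_univ _))
    · intro ω s hs t _
      rw [NNReal.coe_one] at hs
      exact hB s hs _ (hpos _ ω)
    · intro ω h0 s hs t ht htτ
      rw [NNReal.coe_one] at hs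
      refine hC s hs _ (hpos _ ω) (hbd ω h0 _ ?_)
      rw [Real.toNNReal_le_iff_le_coe]
      exact htτ
    · intro t ht
      have h := hC8 H T hT Q hQ α d g U hU Ω X hcont hXm (fun ω => min t (τ ω))
        (measurable_const.min hτ) (fun ω => (min_le_left _ _).trans ht)
      simpa only [Real.toNNReal_coe] using h
    · intro s hs
      have h := hC9 H T hT Q hQ α d g y hgy U hU Ω P ℱ X τ hmart s
        ⟨s.2, by exact_mod_cast hs⟩
      simpa only [Real.toNNReal_coe] using h
  have h := hTD4 Ω P ℱ τ 1 B C _ _ hdata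
  simpa only [Real.toNNReal_coe, Real.toNNReal_zero] using h

end Pool.Agent.Q110.WI
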