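import Pool.Agent.Q78.WI.Stm

/-!
# Project WI (helper78), job D: the Laplace transform identity
-/

set_option autoImplicit false

open MeasureTheory ProbabilityTheory Filter Topology Set
open scoped NNReal InnerProductSpace Matrix

namespace Pool.Agent.Q110.WI.LT

open Pool.Agent.Q78.WI

universe u v

section

variable {H : Type u} [NormedAddCommGroup H] [InnerProductSpace ℝ H]

theorem gram_herm {S : H →L[ℝ] H} (hS : S.IsPositive) (x y : H) : ⟪S x, y⟫_ℝ = ⟪S y, x⟫_ℝ := by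
  rw [hS.inner_left_eq_inner_right, real_inner_comm]

theorem gram_pos {S : H →L[ℝ] H} (hS : S.IsPositive) {d : ℕ} (g : Fin d → H) :
    (Matrix.of fun i j => ⟪S (g i), g j⟫_ℝ : Matrix (Fin d) (Fin d) ℝ).PosSemidef := by
  refine Matrix.PosSemidef.of_dotProduct_mulVec_nonneg ?_ ?_
  · ext i j
    simp only [Matrix.conjTranspose_apply, Matrix.of_apply, star_trivial]
    exact gram_herm hS _ _
  · intro x
    have h : star x ⬝ᵥ (Matrix.of fun i j => ⟪S (g i), g j⟫_ℝ) *ᵥ x =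
        ⟪S (∑ i, x i • g i), ∑ i, x i • g i⟫_ℝ := by
      simp only [dotProduct, Matrix.mulVec, Matrix.of_apply, star_trivial, map_sum, map_smul,
        sum_inner, inner_sum, real_inner_smul_left, real_inner_smul_right, Finset.mul_sum]
      refine Finset.sum_congr rfl fun i _ => Finset.sum_congr rfl fun j _ => ?_
      rw [gram_herm hS]
      ring
    rw [h]
    exact hS.inner_nonneg_left _

theorem tq_trace {S : H →L[ℝ] H} (hS : S.IsPositive) {d : ℕ} (ψ : Matrix (Fin d) (Fin d) ℝ)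
    (g : Fin d → H) : tq ψ S g = (ψ * Matrix.of fun i j => ⟪S (g i), g j⟫_ℝ).trace := by
  simp only [tq, Matrix.trace, Matrix.diag, Matrix.mul_apply, Matrix.of_apply]
  refine Finset.sum_congr rfl fun i _ => Finset.sum_congr rfl fun j _ => ?_
  rw [gram_herm hS]

end

theorem dlap (hC7 : S_C7.{u}) (hC8 : S_C8.{u, v}) (hC10 : S_C10.{u, v}) : S_D.{u, v} := by
  intro H _ _ _ T hT Q hQ α Ω _ P _ ℱ X hX d g y hgy hg1
  obtain ⟨hpos, hcont, hadp, τ, hstop, htend, hbd, hmart⟩ := hX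
  have hXm : ∀ t (x z : H), Measurable fun ω => ⟪X t ω x, z⟫_ℝ := fun t x z =>
    (hadp t x z).mono (ℱ.le t) le_rfl
  refine ⟨fun i j => hXm 1 _ _, fun i j => hXm 0 _ _, fun ω => gram_pos (hpos 1 ω) _,
    fun ω => gram_pos (hpos 0 ω) _, ?_⟩
  intro U hU
  obtain ⟨⟨B, hB⟩, -⟩ := hC7 H T hT Q hQ α d g y U hU
  -- the identity for the stopped processes
  have h1 : ∀ n, ∫ ω, av α T Q g U (X (min 1 (τ n ω)) ω) ((min 1 (τ n ω) : ℝ≥0) : ℝ) ∂P
        = ∫ ω, av α T Q g U (X 0 ω) 0 ∂P := fun n =>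
    hC10 H T hT Q hQ α d g y hgy U hU Ω P ℱ X (τ n) n hpos hcont hadp (hstop n) (hbd n)
      (fun m h y' hy' => hmart n m h y' hy')
  have hτ : ∀ n, Measurable (τ n) := fun n => measurable_of_Iic fun t => ℱ.le t _ (hstop n t)
  have h2 : Tendsto (fun n => ∫ ω, av α T Q g U (X (min 1 (τ n ω)) ω)
      ((min 1 (τ n ω) : ℝ≥0) : ℝ) ∂P) atTop (𝓝 (∫ ω, av α T Q g U (X 1 ω) 1 ∂P)) := by
    refine tendsto_integral_of_dominated_convergence (fun _ => B) (fun n => ?_)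
      (integrable_const B) (fun n => ?_) ?_
    · exact (hC8 H T hT Q hQ α d g U hU Ω X hcont hXm (fun ω => min 1 (τ n ω))
        (measurable_const.min (hτ n)) (fun ω => min_le_left _ _)).aestronglyMeasurable
    · refine Eventually.of_forall fun ω => ?_
      rw [Real.norm_eq_abs]
      exact hB _ ⟨NNReal.coe_nonneg _, by exact_mod_cast min_le_left _ _⟩ _ (hpos _ ω)
    · filter_upwards [htend] with ω hω
      have h3 : ∀ᶠ n in atTop, 1 ≤ τ n ω := hω.eventually_ge_atTop 1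
      refine tendsto_const_nhds.congr' ?_
      filter_upwards [h3] with n hn
      rw [min_eq_left hn, NNReal.coe_one]
  have h3 : ∫ ω, av α T Q g U (X 1 ω) 1 ∂P = ∫ ω, av α T Q g U (X 0 ω) 0 ∂P := by
    refine tendsto_nhds_unique h2 ?_
    simp only [h1]
    exact tendsto_const_nhds
  -- the values at the times `1` and `0`
  have hUdet := hU.det_pos
  have hUu : IsUnit U.det := hUdet.ne'.isUnit
  have hT0 : ∀ x : H, T 0 x = x := fun x => by rw [hT.zero]; rfl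
  have hgram0 : gram T Q g 0 = 0 := by
    ext i j
    simp [gram]
  have e1 : ∀ ω, av α T Q g U (X 1 ω) 1 = (U⁻¹).det ^ (-(α / 2)) *
      Real.exp (-(U * Matrix.of fun i j => ⟪X 1 ω (g i), g j⟫_ℝ).trace) := by
    intro ω
    rw [← tq_trace (hpos 1 ω)]
    unfold av fac psi
    rw [sub_self, hgram0, add_zero, Matrix.nonsing_inv_nonsing_inv U hUu]
    simp only [hT0]
  have e0 : ∀ ω, av α T Q g U (X 0 ω) 0 = (U⁻¹ + 1).det ^ (-(α / 2)) *
      Real.exp (-((U⁻¹ + 1)⁻¹ * Matrix.of fun i j => ⟪X 0 ω (T 1 (g i)), T 1 (g j)⟫_ℝ).trace) := by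
    intro ω
    rw [← tq_trace (hpos 0 ω)]
    unfold av fac psi
    rw [sub_zero, hg1]
  simp only [e1, e0] at h3
  rw [integral_const_mul, integral_const_mul] at h3
  have hUi : 0 ≤ (U⁻¹).det := by
    rw [Matrix.det_nonsing_inv, Ring.inverse_eq_inv']
    positivity
  have hUi1 : 0 ≤ (U⁻¹ + 1).det := by
    have h4 : U * (U⁻¹ + 1) = 1 + U := by
      rw [mul_add, Matrix.mul_nonsing_inv U hUu, mul_one]
    have h5 : (1 + U).PosDef := Matrix.PosDef.one.add_posSemidef hU.posSemidef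
    have h6 := h5.det_pos
    rw [← h4, Matrix.det_mul] at h6
    exact ((mul_pos_iff_of_pos_left hUdet).1 h6).le
  have h7 : U.det ^ (-(α / 2)) * (U⁻¹).det ^ (-(α / 2)) = 1 := by
    rw [← Real.mul_rpow hUdet.le hUi, ← Matrix.det_mul, Matrix.mul_nonsing_inv U hUu,
      Matrix.det_one, Real.one_rpow]
  have h8 : U.det ^ (-(α / 2)) * (U⁻¹ + 1).det ^ (-(α / 2)) = (1 + U).det ^ (-(α / 2)) := by
    rw [← Real.mul_rpow hUdet.le hUi1, ← Matrix.det_mul, mul_add, Matrix.mul_nonsing_inv U hUu,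
      mul_one]
  calc ∫ ω, Real.exp (-(U * Matrix.of fun i j => ⟪X 1 ω (g i), g j⟫_ℝ).trace) ∂P
      = (U.det ^ (-(α / 2)) * (U⁻¹).det ^ (-(α / 2))) *
        ∫ ω, Real.exp (-(U * Matrix.of fun i j => ⟪X 1 ω (g i), g j⟫_ℝ).trace) ∂P := by
        rw [h7, one_mul]
    _ = U.det ^ (-(α / 2)) * ((U⁻¹ + 1).det ^ (-(α / 2)) * ∫ ω, Real.exp (-((U⁻¹ + 1)⁻¹ *
        Matrix.of fun i j => ⟪X 0 ω (T 1 (g i)), T 1 (g j)⟫_ℝ).trace) ∂P) := by
        rw [mul_assoc, h3]
    _ = (1 + U).det ^ (-(α / 2)) * ∫ ω, Real.exp (-((U⁻¹ + 1)⁻¹ *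
        Matrix.of fun i j => ⟪X 0 ω (T 1 (g i)), T 1 (g j)⟫_ℝ).trace) ∂P := by
        rw [← mul_assoc, h8]

end Pool.Agent.Q110.WI.LT
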